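import Pool.Agent.Q201.CR.Growth

/-!
# Compressibility rates of automatic presentations of `(ℤ; +)` are linear

The definitions (`conv2`, `conv3`, `Presentation`, `Presentation.len`, `rate`) are in
`Pool/Agent/Q201/CR/Defs.lean`.

Idea of the proof.  Split the canonical strings at position `n` into a prefix and a tail.  The
relation `y - x ∈ A n` (`A n`: the numbers with a string of length at most `n`), the order of codes
and everything first-order definable from them have finitely many sections over the prefixes,
uniformly in `n`.  Every tail carries boundedly many clusters (pairwise non-close points), which can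
be numbered greedily in a definable way, so the graph of clusters at scale `n` is one of finitely
many graphs on `tails × {1, …, K}`.  Each of them grows linearly, hence they all grow linearly with
one constant, and a number `M ∈ A n` larger than a constant times `σ ^ n` would produce too many
clusters by the combinations `a + b M`.
-/

set_option autoImplicit false

namespace Pool.Agent.Results.MP_868060_lc.LinearRate

open Pool.Agent.Q201.CR

/-- The compressibility rate of any FA-presentation of `(ℤ; +)` relative to any other one is bounded
above by a linear function; moreover in any FA-presentation of `(ℤ; +)` a string of length `n`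
represents a number of absolute value at most `C (|Σ| + 2) ^ n`. -/
theorem result :
    (∀ P P₀ : Presentation, ∃ a b : ℕ, ∀ n : ℕ, rate P P₀ n ≤ a * n + b) ∧
    (∀ P : Presentation, ∃ C : ℕ, ∀ w ∈ P.L,
      (P.ψ w).natAbs ≤ C * (Nat.card P.α + 2) ^ w.length) := by
  refine ⟨rate_le, fun P => ?_⟩
  obtain ⟨C, hC⟩ := P.growth
  exact ⟨C, fun w hw => hC w.length (P.ψ w) (P.mem_A.2 ⟨w, hw, le_rfl, rfl⟩)⟩

end Pool.Agent.Results.MP_868060_lc.LinearRate
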